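import Mathlib
import Pool.Agent.H3.HR.Fin

/-!
# Maximal admissible sets against the prime counting function

For every `ε > 0` and all large `x` there is a set of integers in `[0, x)` that contains `0`, misses a residue class
modulo every prime, and has more than `π(x) + (2 - ε) x log log log x / (log x) ^ 2` elements.
-/

set_option autoImplicit false

namespace Pool.Agent.Results.MP_67e6ae_nt.ExcessTwoLLL

theorem result (ε : ℝ) (hε : 0 < ε) : ∃ x₀ : ℝ, ∀ x : ℝ, x₀ ≤ x → ∃ S : Finset ℤ, 0 ∈ S ∧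
    (∀ s ∈ S, 0 ≤ s ∧ (s : ℝ) < x) ∧
    (∀ q : ℕ, q.Prime → ∃ r : ℤ, ∀ s ∈ S, ¬ ((q : ℤ) ∣ s - r)) ∧
    (Nat.primeCounting ⌊x⌋₊ : ℝ) + (2 - ε) * x * Real.log (Real.log (Real.log x)) / (Real.log x) ^ 2 <
      (S.card : ℝ) :=
  Pool.Agent.H3.HR.excess ε hε

end Pool.Agent.Results.MP_67e6ae_nt.ExcessTwoLLL
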