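import Mathlib
import Pool.Agent.H3.HR.Irr

/-!
# The large primes do not matter for the size of admissible sets

A set of integers in `[0, x)` that misses a residue class modulo each prime up to
`672 (A + 1) x log log x / (log x) ^ 2` misses, after the deletion of a proportion `(log x) ^ (-A)` of its
elements, a residue class modulo every prime.
-/

set_option autoImplicit false

namespace Pool.Agent.Results.MP_67e6ae_nt.LargePrimesFree

theorem result (A : ℝ) (hA : 0 < A) : ∃ x₀ : ℝ, ∀ x : ℝ, x₀ ≤ x → ∀ S : Finset ℤ,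
    (∀ s ∈ S, 0 ≤ s ∧ (s : ℝ) < x) →
    (∀ q : ℕ, q.Prime → (q : ℝ) ≤ 672 * (A + 1) * x * Real.log (Real.log x) / (Real.log x) ^ 2 →
      ∃ r : ℤ, ∀ s ∈ S, ¬ ((q : ℤ) ∣ s - r)) →
    ∃ S' ⊆ S, (1 - (Real.log x) ^ (-A)) * (S.card : ℝ) ≤ (S'.card : ℝ) ∧
      ∀ q : ℕ, q.Prime → ∃ r : ℤ, ∀ s ∈ S', ¬ ((q : ℤ) ∣ s - r) :=
  Pool.Agent.H3.HR.irrelevance A hA

end Pool.Agent.Results.MP_67e6ae_nt.LargePrimesFree
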