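import Mathlib
import Pool.Agent.RTH.Equiv

/-!
# Which primes matter for `ρ*(x) ~ π(x)`

`rhoUpTo x y` is the largest size of a set of integers in `[0, x)` that misses a residue class modulo each
prime `q ≤ y`, and `rhoStar x` the largest size when this is required for every prime. For every fixed
`θ < 1` the analogue of the question with the primes up to `x ^ θ` only is false, in a quantitative form;
on the other hand the primes above `x ^ θ` cost at most the factor `θ`, so the question is a statement about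
the limit `θ → 1`.
-/

set_option autoImplicit false

open Filter Topology Pool.Agent.RTH

namespace Pool.Agent.Results.MP_67e6ae_nt.RelevantPrimes

theorem result :
    (∃ c : ℝ, 0 < c ∧ ∀ θ : ℝ, 0 < θ → θ < 1 → ∃ x₀ : ℝ, ∀ x : ℝ, x₀ ≤ x →
      (1 + c * ((1 - θ) / (1 + Real.log (1 / (1 - θ))))) * (Nat.primeCounting ⌊x⌋₊ : ℝ) ≤
        (rhoUpTo x (x ^ θ) : ℝ)) ∧
    (∀ θ η : ℝ, 0 < θ → θ < 1 → 0 < η → ∃ x₀ : ℝ, ∀ x : ℝ, x₀ ≤ x →
      (rhoStar x : ℝ) ≤ rhoUpTo x (x ^ θ) ∧ (1 - η) * θ * (rhoUpTo x (x ^ θ) : ℝ) ≤ rhoStar x) ∧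
    (Tendsto (fun x : ℝ => (rhoStar x : ℝ) / (Nat.primeCounting ⌊x⌋₊ : ℝ)) atTop (𝓝 1) ↔
      ∀ ε : ℝ, 0 < ε → ∃ θ : ℝ, 0 < θ ∧ θ < 1 ∧ ∃ x₀ : ℝ, ∀ x : ℝ, x₀ ≤ x →
        (rhoUpTo x (x ^ θ) : ℝ) ≤ (1 + ε) * (Nat.primeCounting ⌊x⌋₊ : ℝ)) := by
  refine ⟨lower, fun θ η h0 h1 hη => ?_, equiv⟩
  obtain ⟨x₀, hx₀⟩ := upper θ η h0 h1 hη
  exact ⟨x₀, fun x hx => ⟨by exact_mod_cast rhoStar_le x (x ^ θ), hx₀ x hx⟩⟩

end Pool.Agent.Results.MP_67e6ae_nt.RelevantPrimes
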